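import Pool.Agent.Helper92.BO.GoalsP

/-!
# EDJ: the graph of a pair system
-/

namespace Pool.Agent.Helper69.BO

open Pool.Agent.Helper92.BO Pool.Agent.Helper92.VP Pool.Agent.Helper92.FR Pool.Agent.Bin

theorem BN_eq_zero (b : BN) : b = ⟨0⟩ ↔ b.val = 0 := by
  cases b
  simp

theorem nzB_iff (x : RQ) : nzB x = true ↔ RQ.val x ≠ 0 := by
  obtain ⟨s, a, d⟩ := x
  unfold nzB RQ.val
  simp only [Bool.and_eq_true, decide_eq_true_eq, ne_eq, BN_eq_zero, div_eq_zero_iff, mul_eq_zero,
    Nat.cast_eq_zero, not_or]
  constructor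
  · rintro ⟨h1, h2⟩
    refine ⟨⟨?_, h1⟩, h2⟩
    split_ifs <;> norm_num
  · rintro ⟨⟨_, h1⟩, h2⟩
    exact ⟨h1, h2⟩

theorem mem_nzs (n : ℕ) (r : List RQ × RQ) (j : ℕ) :
    j ∈ nzs n r ↔ j < n ∧ coef r j ≠ 0 := by
  unfold nzs coef
  rw [List.mem_filter, List.mem_range, nzB_iff]

theorem nodup_nzs (n : ℕ) (r : List RQ × RQ) : (nzs n r).Nodup :=
  List.nodup_range.filter _

theorem nzs_single {n : ℕ} {r : List RQ × RQ} {i : ℕ} {c : ℝ}
    (h : ∀ k < n, coef r k = if k = i then c else 0) : (nzs n r).length ≤ 1 := by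
  rw [← List.toFinset_card_of_nodup (nodup_nzs n r)]
  apply Finset.card_le_one_iff_subset_singleton.2
  refine ⟨i, ?_⟩
  intro j hj
  rw [List.mem_toFinset, mem_nzs] at hj
  rw [h j hj.1] at hj
  rw [Finset.mem_singleton]
  by_contra hne
  rw [if_neg hne] at hj
  exact hj.2 rfl

theorem nzs_pair {n : ℕ} {s : ℕ → ℝ} (hs : ∀ i, s i = 1 ∨ s i = -1) {r : List RQ × RQ}
    {i j : ℕ} (hi : i < n) (hj : j < n) (h : PairRow n s r i j) :
    nzs n r = [i, j] ∨ nzs n r = [j, i] := by
  have h1 : (nzs n r).toFinset = {i, j} := by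
    ext k
    rw [List.mem_toFinset, mem_nzs, Finset.mem_insert, Finset.mem_singleton]
    constructor
    · intro hk
      rw [h.2.2 k hk.1] at hk
      by_contra hne
      rw [if_neg hne] at hk
      exact hk.2 rfl
    · intro hk
      have hkn : k < n := by
        rcases hk with rfl | rfl
        · exact hi
        · exact hj
      refine ⟨hkn, ?_⟩
      rw [h.2.2 k hkn, if_pos hk]
      rcases hs k with h0 | h0 <;> rw [h0] <;> norm_num
  have h2 : (nzs n r).length = 2 := by
    rw [← List.toFinset_card_of_nodup (nodup_nzs n r), h1, Finset.card_pair h.1]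
  obtain ⟨a, b, hab⟩ := List.length_eq_two.1 h2
  have hnd := nodup_nzs n r
  rw [hab] at hnd h1 ⊢
  have hne : a ≠ b := by
    intro he
    rw [he] at hnd
    simp at hnd
  have ha : a = i ∨ a = j := by
    have : a ∈ ([a, b] : List ℕ).toFinset := by simp
    rw [h1] at this
    simpa using this
  have hb : b = i ∨ b = j := by
    have : b ∈ ([a, b] : List ℕ).toFinset := by simp
    rw [h1] at this
    simpa using this
  rcases ha with rfl | rfl
  · rcases hb with rfl | rfl
    · exact absurd rfl hne
    · exact Or.inl rfl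
  · rcases hb with rfl | rfl
    · exact Or.inr rfl
    · exact absurd rfl hne

theorem pairRow_symm {n : ℕ} {s : ℕ → ℝ} {r : List RQ × RQ} {i j : ℕ}
    (h : PairRow n s r i j) : PairRow n s r j i := by
  refine ⟨h.1.symm, by rw [h.2.1, add_comm], ?_⟩
  intro k hk
  rw [h.2.2 k hk]
  simp only [or_comm]

theorem adj_iff {S : Sys} {s : ℕ → ℝ} (hs : ∀ i, s i = 1 ∨ s i = -1)
    (hS : ∀ r ∈ S.2, (∃ i < S.1, LowRow S.1 r i) ∨ (∃ i < S.1, UpRow S.1 r i) ∨
      ∃ i < S.1, ∃ j < S.1, PairRow S.1 s r i j) (u w : ℕ) :
    (gE (edgesT S)).Adj u w ↔ u < S.1 ∧ w < S.1 ∧ Joined S s u w := by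
  have h0 : (gE (edgesT S)).Adj u w ↔ adjB (edgesT S) u w = true := Iff.rfl
  rw [h0]
  simp only [adjB, Bool.and_eq_true, decide_eq_true_eq, List.any_eq_true, Bool.or_eq_true]
  constructor
  · rintro ⟨hne, e, he, h⟩
    unfold edgesT at he
    rw [List.mem_map] at he
    obtain ⟨r, hr, rfl⟩ := he
    rw [List.mem_filter, decide_eq_true_eq] at hr
    obtain ⟨hr, hlen⟩ := hr
    rcases hS r hr with ⟨i, _, hl⟩ | ⟨i, _, hup⟩ | ⟨i, hi, j, hj, hE⟩
    · have := nzs_single hl.2
      omega
    · have := nzs_single hup.2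
      omega
    · have hcases : (u = i ∧ w = j) ∨ (u = j ∧ w = i) := by
        rcases nzs_pair hs hi hj hE with hn | hn
        · rw [hn] at h
          simp at h
          rcases h with ⟨h1, h2⟩ | ⟨h1, h2⟩
          · exact Or.inl ⟨h1.symm, h2.symm⟩
          · exact Or.inr ⟨h2.symm, h1.symm⟩
        · rw [hn] at h
          simp at h
          rcases h with ⟨h1, h2⟩ | ⟨h1, h2⟩
          · exact Or.inr ⟨h1.symm, h2.symm⟩
          · exact Or.inl ⟨h2.symm, h1.symm⟩
      rcases hcases with ⟨rfl, rfl⟩ | ⟨rfl, rfl⟩
      · exact ⟨hi, hj, r, hr, hE⟩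
      · exact ⟨hj, hi, r, hr, pairRow_symm hE⟩
  · rintro ⟨hu, hw, r, hr, hE⟩
    refine ⟨hE.1, ((nzs S.1 r).getD 0 0, (nzs S.1 r).getD 1 0), ?_, ?_⟩
    · unfold edgesT
      rw [List.mem_map]
      refine ⟨r, ?_, rfl⟩
      rw [List.mem_filter, decide_eq_true_eq]
      refine ⟨hr, ?_⟩
      rcases nzs_pair hs hu hw hE with hn | hn
      · rw [hn]
        rfl
      · rw [hn]
        rfl
    · rcases nzs_pair hs hu hw hE with hn | hn
      · rw [hn]
        left
        simp
      · rw [hn]
        right
        simp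

theorem sum_single {n : ℕ} (r : List RQ × RQ) (i : Fin n) (c : ℝ)
    (h : ∀ k < n, coef r k = if k = (i : ℕ) then c else 0) (x : Fin n → ℝ) :
    ∑ j : Fin n, coef r j * x j = c * x i := by
  rw [Finset.sum_eq_single i]
  · rw [h i i.2, if_pos rfl]
  · intro j _ hj
    rw [h j j.2, if_neg (fun he => hj (Fin.ext he)), zero_mul]
  · intro hi
    exact absurd (Finset.mem_univ _) hi

theorem sum_pair {n : ℕ} {s : ℕ → ℝ} (r : List RQ × RQ) (i j : Fin n)
    (h : PairRow n s r i j) (x : Fin n → ℝ) :
    ∑ k : Fin n, coef r k * x k = s i * x i + s j * x j := by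
  have hij : i ≠ j := fun he => h.1 (by rw [he])
  have h1 : ∀ k : Fin n, coef r k * x k =
      (if k = i then s i * x i else 0) + (if k = j then s j * x j else 0) := by
    intro k
    rw [h.2.2 k k.2]
    by_cases hki : k = i
    · subst hki
      rw [if_pos (Or.inl rfl), if_pos rfl, if_neg hij]
      ring
    · by_cases hkj : k = j
      · subst hkj
        rw [if_pos (Or.inr rfl), if_neg hki, if_pos rfl]
        ring
      · rw [if_neg, if_neg hki, if_neg hkj]
        · ring
        · rintro (h2 | h2)
          · exact hki (Fin.ext h2)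
          · exact hkj (Fin.ext h2)
  rw [Finset.sum_congr rfl fun k _ => h1 k, Finset.sum_add_distrib]
  simp

open Classical in
/-- the reflections -/
noncomputable def refl (n : ℕ) (s : ℕ → ℝ) (x : Fin n → ℝ) : Fin n → ℝ :=
  fun i => (fun t => if s i = 1 then 1 - t else t) (x i)

theorem refl_mp (n : ℕ) (s : ℕ → ℝ) :
    MeasureTheory.MeasurePreserving (refl n s) MeasureTheory.volume MeasureTheory.volume := by
  classical
  unfold refl
  refine MeasureTheory.volume_preserving_pi
    (f := fun (i : Fin n) (t : ℝ) => if s i = 1 then 1 - t else t) ?_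
  intro i
  by_cases h : s i = 1
  · simp only [if_pos h]
    exact MeasureTheory.Measure.measurePreserving_sub_left MeasureTheory.volume 1
  · simp only [if_neg h]
    exact MeasureTheory.MeasurePreserving.id _

theorem polyG_closed (G : SimpleGraph ℕ) (n : ℕ) : IsClosed (polyG G n) := by
  have h : polyG G n = (⋂ i : Fin n, {x | 0 ≤ x i ∧ x i ≤ 1}) ∩
      ⋂ i : Fin n, ⋂ j : Fin n, ⋂ _ : G.Adj i j, {x : Fin n → ℝ | x i + x j ≤ 1} := by
    ext x
    simp only [polyG, Set.mem_ofPred_eq, Set.mem_inter_iff, Set.mem_iInter]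
  rw [h]
  refine IsClosed.inter ?_ ?_
  · refine isClosed_iInter fun i => ?_
    exact (isClosed_le continuous_const (continuous_apply i)).inter
      (isClosed_le (continuous_apply i) continuous_const)
  · refine isClosed_iInter fun i => isClosed_iInter fun j => isClosed_iInter fun _ => ?_
    exact isClosed_le ((continuous_apply i).add (continuous_apply j)) continuous_const

/-- EDJ: the graph of a pair system. -/
theorem edj : EdjStmt := by
  intro Δ S hS
  obtain ⟨s, hs, hrows, hvars, hdeg⟩ := hS
  have hadj := adj_iff hs hrows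
  refine ⟨?_, ?_⟩
  · intro v
    by_cases hv : v < S.1
    · have h1 : (gE (edgesT S)).neighborSet v = {j | j < S.1 ∧ Joined S s v j} := by
        ext j
        rw [SimpleGraph.mem_neighborSet, hadj]
        simp [hv]
      rw [h1]
      have hfin : {j | j < S.1 ∧ Joined S s v j}.Finite :=
        (Set.finite_lt_nat S.1).subset fun j hj => hj.1
      rw [← hfin.cast_ncard_eq]
      exact_mod_cast hdeg v hv
    · have h1 : (gE (edgesT S)).neighborSet v = ∅ := by
        ext j
        rw [SimpleGraph.mem_neighborSet, hadj]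
        simp [hv]
      rw [h1]
      simp
  · have hy : ∀ (x : Fin S.1 → ℝ) (i : Fin S.1), s i * x i = (s i + 1) / 2 - refl S.1 s x i := by
      intro x i
      unfold refl
      rcases hs i with h | h
      · simp only [h, if_true]
        ring
      · have h' : s i ≠ 1 := by rw [h]; norm_num
        simp only [if_neg h']
        rw [h]
        ring
    have hset : sol S = refl S.1 s ⁻¹' polyG (gE (edgesT S)) S.1 := by
      ext x
      rw [Set.mem_preimage]
      constructor
      · intro hx
        have hpair : ∀ i j : Fin S.1, Joined S s i j →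
            refl S.1 s x i + refl S.1 s x j ≤ 1 := by
          intro i j ⟨r, hr, hE⟩
          have h1 := hx r hr
          rw [sum_pair r i j hE, hE.2.1] at h1
          have h2 := hy x i
          have h3 := hy x j
          linarith
        have hlow : ∀ i : Fin S.1, (∃ r ∈ S.2, LowRow S.1 r i) → 0 ≤ x i := by
          rintro i ⟨r, hr, hl⟩
          have h1 := hx r hr
          rw [sum_single r i 1 hl.2, hl.1] at h1
          linarith
        have hup : ∀ i : Fin S.1, (∃ r ∈ S.2, UpRow S.1 r i) → x i ≤ 1 := by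
          rintro i ⟨r, hr, hl⟩
          have h1 := hx r hr
          rw [sum_single r i (-1) hl.2, hl.1] at h1
          linarith
        have hpos : ∀ i : Fin S.1, 0 ≤ refl S.1 s x i := by
          intro i
          have h2 := hy x i
          rcases hs i with h | h
          · rcases (hvars i i.2).2 with h3 | h3
            · have h4 := hup i h3
              rw [h] at h2
              linarith
            · have h5 := h3.1
              rw [h] at h5
              norm_num at h5
          · rcases (hvars i i.2).1 with h3 | h3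
            · have h4 := hlow i h3
              rw [h] at h2
              linarith
            · have h5 := h3.1
              rw [h] at h5
              norm_num at h5
        refine ⟨fun i => ⟨hpos i, ?_⟩, ?_⟩
        · have h2 := hy x i
          rcases hs i with h | h
          · rcases (hvars i i.2).1 with h3 | ⟨_, j, hj, hJ⟩
            · have h4 := hlow i h3
              rw [h] at h2
              linarith
            · have h4 := hpair i ⟨j, hj⟩ hJ
              have h5 := hpos ⟨j, hj⟩
              linarith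
          · rcases (hvars i i.2).2 with h3 | ⟨_, j, hj, hJ⟩
            · have h4 := hup i h3
              rw [h] at h2
              linarith
            · have h4 := hpair i ⟨j, hj⟩ hJ
              have h5 := hpos ⟨j, hj⟩
              linarith
        · intro i j hij
          exact hpair i j ((hadj i j).1 hij).2.2
      · rintro ⟨hbox, hedge⟩ r hr
        rcases hrows r hr with ⟨i, hi, hl⟩ | ⟨i, hi, hup⟩ | ⟨i, hi, j, hj, hE⟩
        · rw [sum_single r (⟨i, hi⟩ : Fin S.1) 1 hl.2, hl.1]
          have h1 := hbox ⟨i, hi⟩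
          have h2 := hy x ⟨i, hi⟩
          rcases hs i with h | h
          · rw [h] at h2
            linarith [h1.2]
          · rw [h] at h2
            linarith [h1.1]
        · rw [sum_single r (⟨i, hi⟩ : Fin S.1) (-1) hup.2, hup.1]
          have h1 := hbox ⟨i, hi⟩
          have h2 := hy x ⟨i, hi⟩
          rcases hs i with h | h
          · rw [h] at h2
            linarith [h1.1]
          · rw [h] at h2
            linarith [h1.2]
        · rw [sum_pair r (⟨i, hi⟩ : Fin S.1) (⟨j, hj⟩ : Fin S.1) hE, hE.2.1]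
          have h1 := hedge ⟨i, hi⟩ ⟨j, hj⟩ ((hadj i j).2 ⟨hi, hj, r, hr, hE⟩)
          have h2 := hy x ⟨i, hi⟩
          have h3 := hy x ⟨j, hj⟩
          simp only at h2 h3
          linarith
    unfold vol
    rw [hset, (refl_mp S.1 s).measure_preimage
      (polyG_closed _ _).measurableSet.nullMeasurableSet]

end Pool.Agent.Helper69.BO
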